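import Pool.Agent.Results.MP_a08d0a_co.SmoothedLevel

/-! Levels of arrangements of lines with random slopes, by the projective map
`(x, y) ↦ (1 / x, y / x)`, which exchanges slopes and intercepts. -/

set_option autoImplicit false

namespace Pool.Agent.V11262.PL

open Finset MeasureTheory Filter Pool.Agent.H189R2.Lev
open Pool.Agent.Results.MP_a08d0a_co.SmoothedLevel (Simple crossings level psi count3 psi_le
  measurable_crossings measurable_ncard ae_simple)
open scoped ENNReal Topology

variable {n : ℕ}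

theorem dual_ht (A b : Fin n → ℝ) (l : Fin n) {x : ℝ} (hx : x ≠ 0) :
    ht b A l (1 / x) = ht A b l x / x := by
  unfold ht
  field_simp
  try ring

theorem dual_simple {A b : Fin n → ℝ} (hb : Function.Injective b) (hS : Simple b A) :
    Simple A b := by
  refine ⟨fun i j hij _ h => hij (hb h), ?_⟩
  rintro i j l hij hil hjl ⟨x, e1, e2⟩
  rcases eq_or_ne x 0 with rfl | hx
  · apply hij
    apply hb
    unfold ht at e1
    simpa using e1
  · apply hS.2 i j l hij hil hjl
    refine ⟨1 / x, ?_, ?_⟩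
    · rw [dual_ht A b i hx, dual_ht A b j hx, e1]
    · rw [dual_ht A b i hx, dual_ht A b l hx, e2]

theorem dual_cr {A b : Fin n → ℝ} {i j : Fin n} (hA : A i ≠ A j) (hb : b i ≠ b j) :
    cr A b i j ≠ 0 ∧ cr b A i j = 1 / cr A b i j := by
  have h1 : A i - A j ≠ 0 := sub_ne_zero.mpr hA
  have h2 : b j - b i ≠ 0 := sub_ne_zero.mpr hb.symm
  have h3 : b i - b j ≠ 0 := sub_ne_zero.mpr hb
  refine ⟨div_ne_zero h2 h1, ?_⟩
  unfold cr
  rw [one_div_div, div_eq_div_iff h3 h2]
  ring

theorem crossings_dual {A b : Fin n → ℝ} (hb : Function.Injective b) (hS : Simple A b) (k : ℕ) :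
    crossings A b k ⊆ crossings b A k ∪ crossings b A (n - 2 - k) := by
  rintro ⟨i, j⟩ ⟨h1, h2, h3⟩
  simp only at h1 h2 h3
  have hbij : b i ≠ b j := fun h => h1.ne (hb h)
  obtain ⟨h0, hc⟩ := dual_cr h2 hbij
  have h4 := ht_cr (B := b) h2
  have h5 := count3 hS h1.ne h4.symm
  rcases lt_or_gt_of_ne h0 with h | h
  · right
    refine ⟨h1, hbij, ?_⟩
    show {l | ht b A l (cr b A i j) < ht b A i (cr b A i j)}.ncard = n - 2 - k
    rw [hc]
    have e : {l | ht b A l (1 / cr A b i j) < ht b A i (1 / cr A b i j)} =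
        {l | ht A b i (cr A b i j) < ht A b l (cr A b i j)} := by
      ext l
      simp only [Set.mem_ofPred_eq]
      rw [dual_ht A b l h0, dual_ht A b i h0, div_lt_div_right_of_neg h]
    rw [e]
    omega
  · left
    refine ⟨h1, hbij, ?_⟩
    show {l | ht b A l (cr b A i j) < ht b A i (cr b A i j)}.ncard = k
    rw [hc]
    have e : {l | ht b A l (1 / cr A b i j) < ht b A i (1 / cr A b i j)} =
        {l | ht A b l (cr A b i j) < ht A b i (cr A b i j)} := by
      ext l
      simp only [Set.mem_ofPred_eq]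
      rw [dual_ht A b l h0, dual_ht A b i h0, div_lt_div_iff_of_pos_right h]
    rw [e]
    exact h3

theorem ncard_dual {A b : Fin n → ℝ} (hb : Function.Injective b) (hS : Simple A b) (k : ℕ) :
    (crossings A b k).ncard ≤ (crossings b A k).ncard + (crossings b A (n - 2 - k)).ncard :=
  (Set.ncard_le_ncard (crossings_dual hb hS k) (Set.toFinite _)).trans (Set.ncard_union_le _ _)

theorem measurable_slopes (b : Fin n → ℝ) (k : ℕ) :
    Measurable (fun A : Fin n → ℝ => ((crossings A b k).ncard : ℝ≥0∞)) := by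
  have mcr : ∀ i j : Fin n, Measurable (fun A : Fin n → ℝ => cr A b i j) := by
    intro i j
    unfold cr
    fun_prop
  have mht : ∀ i j l : Fin n, Measurable (fun A : Fin n → ℝ => ht A b l (cr A b i j)) := by
    intro i j l
    unfold ht
    exact ((measurable_pi_apply l).mul (mcr i j)).add_const _
  have h := measurable_ncard (fun (A : Fin n → ℝ) (q : Fin n × Fin n) => q.1 < q.2 ∧
    A q.1 ≠ A q.2 ∧ {l | ht A b l (cr A b q.1 q.2) < ht A b q.1 (cr A b q.1 q.2)}.ncard = k)
    (fun q => (MeasurableSet.const _).inter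
      ((measurableSet_eq_fun (measurable_pi_apply q.1) (measurable_pi_apply q.2)).compl.inter
        ((measurable_ncard (fun (A : Fin n → ℝ) l =>
          ht A b l (cr A b q.1 q.2) < ht A b q.1 (cr A b q.1 q.2))
          (fun l => measurableSet_lt (mht q.1 q.2 l) (mht q.1 q.2 q.1)))
          (measurableSet_singleton k))))
  exact (measurable_of_countable (fun c : ℕ => (c : ℝ≥0∞))).comp h

theorem two_ofReal (p : ℝ) : ENNReal.ofReal p + ENNReal.ofReal p ≤ ENNReal.ofReal (2 * p) := by
  rcases le_total 0 p with h | h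
  · rw [← ENNReal.ofReal_add h h, two_mul]
  · rw [ENNReal.ofReal_of_nonpos h]
    simp

/-- the cast of the bound for the complexity of a level -/
theorem psi_cast {a B : Fin n → ℝ} (hS : Simple a B) {k : ℕ} (hk : k < n) :
    (psi a B k : ℝ≥0∞) ≤ ((crossings a B k).ncard : ℝ≥0∞) + ((crossings a B (k - 1)).ncard : ℝ≥0∞) := by
  have h1 : (psi a B k : ℝ≥0∞) ≤ (((crossings a B k).ncard +
      (if k = 0 then 0 else (crossings a B (k - 1)).ncard) : ℕ) : ℕ∞) := by
    exact_mod_cast psi_le hS hk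
  refine h1.trans ?_
  rw [ENat.toENNReal_coe]
  split_ifs with h
  · simp
  · push_cast
    exact le_rfl

section random

variable {ν : Fin n → Measure ℝ} [∀ i, IsProbabilityMeasure (ν i)] {D M : ℝ}

theorem slopes_cross (hν : ∀ i, ∀ s t : ℝ, s ≤ t → ν i (Set.Icc s t) ≤ ENNReal.ofReal (D * (t - s)))
    (hM : ∀ i, ∀ᵐ x ∂ν i, |x| ≤ M) {b : Fin n → ℝ} (hb : Function.Injective b) (k : ℕ) :
    ∫⁻ A, ((crossings A b k).ncard : ℝ≥0∞) ∂Measure.pi ν ≤ ENNReal.ofReal (16 * D * M * n) := by
  have hr := (Pool.Agent.Results.MP_a08d0a_co.SmoothedLevel.result n b ν D M hν hM).2.1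
  calc ∫⁻ A, ((crossings A b k).ncard : ℝ≥0∞) ∂Measure.pi ν
      ≤ ∫⁻ A, (((crossings b A k).ncard : ℝ≥0∞) + ((crossings b A (n - 2 - k)).ncard : ℝ≥0∞))
        ∂Measure.pi ν := by
        apply lintegral_mono_ae
        filter_upwards [ae_simple hν b] with A hA
        exact_mod_cast ncard_dual hb (dual_simple hb hA) k
    _ = _ := lintegral_add_left (measurable_crossings b k) _
    _ ≤ _ := add_le_add (hr k) (hr (n - 2 - k))
    _ ≤ ENNReal.ofReal (2 * (8 * D * M * n)) := two_ofReal _
    _ = _ := by congr 1; ring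

theorem sum_psi_slopes
    (hν : ∀ i, ∀ s t : ℝ, s ≤ t → ν i (Set.Icc s t) ≤ ENNReal.ofReal (D * (t - s)))
    (hM : ∀ i, ∀ᵐ x ∂ν i, |x| ≤ M) {b : Fin n → ℝ} (hb : Function.Injective b) (K : Finset ℕ) :
    ∫⁻ A, ∑ k ∈ K, (((crossings A b k).ncard : ℝ≥0∞) + ((crossings A b (k - 1)).ncard : ℝ≥0∞))
      ∂Measure.pi ν ≤ K.card * ENNReal.ofReal (32 * D * M * n) := by
  have hm : ∀ k ∈ K, Measurable (fun A : Fin n → ℝ => ((crossings A b k).ncard : ℝ≥0∞) +
      ((crossings A b (k - 1)).ncard : ℝ≥0∞)) :=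
    fun k _ => (measurable_slopes b k).add (measurable_slopes b (k - 1))
  rw [lintegral_finsetSum _ hm]
  calc _ ≤ ∑ _k ∈ K, ENNReal.ofReal (32 * D * M * n) := by
        apply sum_le_sum
        intro k _
        rw [lintegral_add_left (measurable_slopes b k)]
        refine (add_le_add (slopes_cross hν hM hb k) (slopes_cross hν hM hb (k - 1))).trans ?_
        refine (two_ofReal _).trans (le_of_eq ?_)
        congr 1
        ring
    _ = _ := by rw [sum_const, nsmul_eq_mul]

theorem sum_psi_intercepts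
    (hν : ∀ i, ∀ s t : ℝ, s ≤ t → ν i (Set.Icc s t) ≤ ENNReal.ofReal (D * (t - s)))
    (hM : ∀ i, ∀ᵐ x ∂ν i, |x| ≤ M) (a : Fin n → ℝ) (K : Finset ℕ) :
    ∫⁻ B, ∑ k ∈ K, (((crossings a B k).ncard : ℝ≥0∞) + ((crossings a B (k - 1)).ncard : ℝ≥0∞))
      ∂Measure.pi ν ≤ K.card * ENNReal.ofReal (16 * D * M * n) := by
  have hr := (Pool.Agent.Results.MP_a08d0a_co.SmoothedLevel.result n a ν D M hν hM).2.1
  have hm : ∀ k ∈ K, Measurable (fun B : Fin n → ℝ => ((crossings a B k).ncard : ℝ≥0∞) +
      ((crossings a B (k - 1)).ncard : ℝ≥0∞)) :=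
    fun k _ => (measurable_crossings a k).add (measurable_crossings a (k - 1))
  rw [lintegral_finsetSum _ hm]
  calc _ ≤ ∑ _k ∈ K, ENNReal.ofReal (16 * D * M * n) := by
        apply sum_le_sum
        intro k _
        rw [lintegral_add_left (measurable_crossings a k)]
        refine (add_le_add (hr k) (hr (k - 1))).trans ?_
        refine (two_ofReal _).trans (le_of_eq ?_)
        congr 1
        ring
    _ = _ := by rw [sum_const, nsmul_eq_mul]

end random

end Pool.Agent.V11262.PL
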