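import Pool.Agent.V11262.PL.Unif

/-! Lines with random directions through arbitrary pivots. -/

set_option autoImplicit false

namespace Pool.Agent.V11262.PL

open Finset MeasureTheory Filter Pool.Agent.H189R2.Lev
open Pool.Agent.Results.MP_a08d0a_co.SmoothedLevel (Simple crossings level psi count3 psi_le
  measurable_crossings measurable_ncard ae_simple)
open scoped ENNReal Topology

variable {n : ℕ}

/-- the intercept of the line with slope `A l` through the point `(p l, q l)` -/
def ic (p q A : Fin n → ℝ) (l : Fin n) : ℝ := q l - A l * p l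

theorem ht_ic (p q A : Fin n → ℝ) (l : Fin n) (x : ℝ) :
    ht A (ic p q A) l x = q l + A l * (x - p l) := by
  unfold ht ic
  ring

theorem lint_count {Ω : Type*} [MeasurableSpace Ω] (μ : Measure Ω) {ι : Type*} [Fintype ι]
    (P : Ω → ι → Prop) (hP : ∀ j, MeasurableSet {ω | P ω j}) :
    ∫⁻ ω, ({j | P ω j}.ncard : ℝ≥0∞) ∂μ = ∑ j, μ {ω | P ω j} := by
  classical
  have h1 : ∀ ω, ({j | P ω j}.ncard : ℝ≥0∞) = ∑ j, {ω | P ω j}.indicator (1 : Ω → ℝ≥0∞) ω := by
    intro ω
    have : {j | P ω j} = ((univ.filter (fun j => P ω j) : Finset ι) : Set ι) := by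
      ext j; simp
    rw [this, Set.ncard_coe_finset, card_filter]
    push_cast
    apply sum_congr rfl
    intro j _
    simp [Set.indicator_apply]
  simp_rw [h1]
  rw [lintegral_finsetSum _ (fun j _ => measurable_one.indicator (hP j))]
  exact sum_congr rfl fun j _ => lintegral_indicator_one (hP j)

theorem image_vol (a c : ℝ) (hc : c ≠ 0) {T : Set ℝ} (hT : MeasurableSet T)
    (h0 : ∀ t ∈ T, t ≠ 0) :
    volume ((fun t => a + c / t) '' T) = ∫⁻ t in T, ENNReal.ofReal |c / t ^ 2| := by
  have hd : ∀ t ∈ T, HasDerivWithinAt (fun t => a + c / t) (-(c / t ^ 2)) T t := by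
    intro t ht
    have h1 := ((hasDerivAt_inv (h0 t ht)).const_mul c).const_add a
    have h2 : (fun t => a + c / t) = (fun x => a + c * x⁻¹) := by
      ext x; rw [div_eq_mul_inv]
    rw [h2]
    refine h1.hasDerivWithinAt.congr_deriv ?_
    rw [div_eq_mul_inv]
    ring
  have hi : Set.InjOn (fun t => a + c / t) T := by
    intro s hs t ht h
    simp only [add_right_inj] at h
    have hs0 := h0 s hs
    have ht0 := h0 t ht
    rw [div_eq_div_iff hs0 ht0] at h
    exact (mul_left_cancel₀ hc h).symm
  have h3 := lintegral_image_eq_lintegral_abs_deriv_mul hT hd hi (fun _ => 1)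
  rw [setLIntegral_one] at h3
  rw [h3]
  apply lintegral_congr
  intro t
  rw [mul_one, abs_neg]

/-- the shell -/
def shell (δ R : ℝ) : Set ℝ := {t | δ ≤ |t| ∧ |t| ≤ R}

theorem measurable_shell (δ R : ℝ) : MeasurableSet (shell δ R) :=
  (measurableSet_le measurable_const measurable_norm).inter
    (measurableSet_le measurable_norm measurable_const)

theorem shell_int {δ R M : ℝ} (hδ : 0 < δ) (hR : δ ≤ R) (hM : 0 ≤ M) :
    ∫⁻ t in shell δ R, ENNReal.ofReal (2 * M / |t|) ≤ ENNReal.ofReal (4 * M * Real.log (R / δ)) := by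
  have hR0 : 0 < R := hδ.trans_le hR
  have hlog : 0 ≤ Real.log (R / δ) := Real.log_nonneg (by rwa [one_le_div hδ])
  have hsub : shell δ R ⊆ Set.Icc δ R ∪ Set.Icc (-R) (-δ) := by
    rintro t ⟨h1, h2⟩
    rcases le_total 0 t with h | h
    · left
      rw [abs_of_nonneg h] at h1 h2
      exact ⟨h1, h2⟩
    · right
      rw [abs_of_nonpos h] at h1 h2
      exact ⟨by linarith, by linarith⟩
  have e1 : ∫⁻ t in Set.Icc δ R, ENNReal.ofReal (2 * M / |t|) =
      ENNReal.ofReal (2 * M * Real.log (R / δ)) := by
    have hi : IntegrableOn (fun t : ℝ => 2 * M / |t|) (Set.Icc δ R) := by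
      apply ContinuousOn.integrableOn_Icc
      apply ContinuousOn.div continuousOn_const continuous_abs.continuousOn
      intro t ht
      exact abs_ne_zero.2 (hδ.trans_le ht.1).ne'
    rw [← ofReal_integral_eq_lintegral_ofReal hi (Eventually.of_forall fun t => by positivity)]
    congr 1
    rw [integral_Icc_eq_integral_Ioc, ← intervalIntegral.integral_of_le hR]
    have : ∫ t in δ..R, 2 * M / |t| = ∫ t in δ..R, 2 * M * t⁻¹ := by
      apply intervalIntegral.integral_congr
      intro t ht
      rw [Set.uIcc_of_le hR] at ht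
      simp only
      rw [abs_of_pos (hδ.trans_le ht.1), div_eq_mul_inv]
    rw [this, intervalIntegral.integral_const_mul, integral_inv_of_pos hδ hR0]
  have e2 : ∫⁻ t in Set.Icc (-R) (-δ), ENNReal.ofReal (2 * M / |t|) =
      ENNReal.ofReal (2 * M * Real.log (R / δ)) := by
    have hi : IntegrableOn (fun t : ℝ => 2 * M / |t|) (Set.Icc (-R) (-δ)) := by
      apply ContinuousOn.integrableOn_Icc
      apply ContinuousOn.div continuousOn_const continuous_abs.continuousOn
      intro t ht
      exact abs_ne_zero.2 (by linarith [ht.2] : t < 0).ne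
    rw [← ofReal_integral_eq_lintegral_ofReal hi (Eventually.of_forall fun t => by positivity)]
    congr 1
    rw [integral_Icc_eq_integral_Ioc, ← intervalIntegral.integral_of_le (by linarith)]
    have : ∫ t in (-R)..(-δ), 2 * M / |t| = ∫ t in (-R)..(-δ), (-(2 * M)) * t⁻¹ := by
      apply intervalIntegral.integral_congr
      intro t ht
      rw [Set.uIcc_of_le (by linarith)] at ht
      simp only
      rw [abs_of_neg (by linarith [ht.2] : t < 0), div_neg, div_eq_mul_inv]
      ring
    rw [this, intervalIntegral.integral_const_mul, integral_inv_of_neg (by linarith) (by linarith),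
      neg_div_neg_eq, ← inv_div R δ, Real.log_inv]
    ring
  calc _ ≤ ∫⁻ t in Set.Icc δ R ∪ Set.Icc (-R) (-δ), ENNReal.ofReal (2 * M / |t|) :=
        lintegral_mono_set hsub
    _ ≤ _ := lintegral_union_le _ _ _
    _ = _ := by
        rw [e1, e2, ← ENNReal.ofReal_add (by positivity) (by positivity)]
        congr 1
        ring

end Pool.Agent.V11262.PL
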