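import Pool.Agent.V11262.PL.Piv

/-! The crossings of one line with the others, at moderate distance from its pivot. -/

set_option autoImplicit false

namespace Pool.Agent.V11262.PL

open Finset MeasureTheory Filter Pool.Agent.H189R2.Lev
open Pool.Agent.Results.MP_a08d0a_co.SmoothedLevel (Simple crossings level psi count3 psi_le
  measurable_crossings measurable_ncard ae_simple)
open scoped ENNReal Topology

variable {n : ℕ}

/-- the height above `x` of the line with slope `A l` through `(p l, q l)` -/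
def hp (p q A : Fin n → ℝ) (l : Fin n) (x : ℝ) : ℝ := q l + A l * (x - p l)

/-- the height of the line `j` above the pivot of `i`, relative to that pivot -/
def cc (p q A : Fin n → ℝ) (i j : Fin n) : ℝ := q j - q i + A j * (p i - p j)

/-- the places where the line `i` can meet the line `j` on the `k`-level -/
def TT (p q : Fin n → ℝ) (δ R M : ℝ) (k : ℕ) (i j : Fin n) (A : Fin n → ℝ) : Set ℝ :=
  {t | j ≠ i ∧ t ∈ shell δ R ∧ |cc p q A i j| ≤ 2 * M * |t| ∧
    {l | l ≠ i ∧ hp p q A l (p i + t) < hp p q A j (p i + t)}.ncard = k}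

theorem rank_lt (f : Fin n → ℝ) {i j l : Fin n} (hj : j ≠ i) (h : f j < f l) :
    {m | m ≠ i ∧ f m < f j}.ncard < {m | m ≠ i ∧ f m < f l}.ncard := by
  apply Set.ncard_lt_ncard _ (Set.toFinite _)
  have hsub : {m | m ≠ i ∧ f m < f j} ⊆ {m | m ≠ i ∧ f m < f l} :=
    fun m hm => ⟨hm.1, lt_trans hm.2 h⟩
  rw [Set.ssubset_iff_of_subset hsub]
  exact ⟨j, ⟨hj, h⟩, fun h' => lt_irrefl _ h'.2⟩

theorem rank_eq (f : Fin n → ℝ) {i j l : Fin n} (hj : j ≠ i) (hl : l ≠ i)
    (h : {m | m ≠ i ∧ f m < f j}.ncard = {m | m ≠ i ∧ f m < f l}.ncard) : f j = f l := by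
  by_contra hne
  rcases lt_or_gt_of_ne hne with h' | h'
  · exact (rank_lt f hj h').ne h
  · exact (rank_lt f hl h').ne h.symm

theorem TT_disj {p q A : Fin n → ℝ} {δ R M : ℝ} {k : ℕ} {i : Fin n}
    (hA : ∀ j l, j ≠ l → A j ≠ A l ∨ j = i ∨ l = i) :
    Pairwise (Function.onFun (AEDisjoint (volume : Measure ℝ)) (fun j => TT p q δ R M k i j A)) := by
  intro j l hjl
  show volume (TT p q δ R M k i j A ∩ TT p q δ R M k i l A) = 0
  apply Set.Subsingleton.measure_zero
  rintro s ⟨⟨hj, _, _, hs1⟩, ⟨hl, _, _, hs2⟩⟩ t ⟨⟨_, _, _, ht1⟩, ⟨_, _, _, ht2⟩⟩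
  have e1 := rank_eq (fun m => hp p q A m (p i + s)) hj hl (hs1.trans hs2.symm)
  have e2 := rank_eq (fun m => hp p q A m (p i + t)) hj hl (ht1.trans ht2.symm)
  have hne : A j - A l ≠ 0 := by
    rcases hA j l hjl with h | h | h
    · exact sub_ne_zero.mpr h
    · exact absurd h hj
    · exact absurd h hl
  unfold hp at e1 e2
  apply mul_left_cancel₀ hne
  linarith

theorem measurable_hp (p q : Fin n → ℝ) (i l : Fin n) :
    Measurable (fun z : (Fin n → ℝ) × ℝ => hp p q z.1 l (p i + z.2)) := by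
  unfold hp
  fun_prop

theorem measurable_cc (p q : Fin n → ℝ) (i j : Fin n) :
    Measurable (fun A : Fin n → ℝ => cc p q A i j) := by
  unfold cc
  fun_prop

theorem measurable_TT (p q : Fin n → ℝ) (δ R M : ℝ) (k : ℕ) (i j : Fin n) :
    MeasurableSet {z : (Fin n → ℝ) × ℝ | z.2 ∈ TT p q δ R M k i j z.1} := by
  have h1 : MeasurableSet {z : (Fin n → ℝ) × ℝ | z.2 ∈ shell δ R} :=
    measurable_snd (measurable_shell δ R)
  have h2 : MeasurableSet {z : (Fin n → ℝ) × ℝ | |cc p q z.1 i j| ≤ 2 * M * |z.2|} := by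
    apply measurableSet_le
    · exact ((measurable_cc p q i j).comp measurable_fst).norm
    · exact measurable_snd.norm.const_mul _
  have h3 : MeasurableSet {z : (Fin n → ℝ) × ℝ |
      {l | l ≠ i ∧ hp p q z.1 l (p i + z.2) < hp p q z.1 j (p i + z.2)}.ncard = k} :=
    (measurable_ncard (fun (z : (Fin n → ℝ) × ℝ) l =>
      l ≠ i ∧ hp p q z.1 l (p i + z.2) < hp p q z.1 j (p i + z.2))
      (fun l => (MeasurableSet.const _).inter
        (measurableSet_lt (measurable_hp p q i l) (measurable_hp p q i j))))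
      (measurableSet_singleton k)
  exact (MeasurableSet.const _).inter (h1.inter (h2.inter h3))

theorem measurable_TTs (p q : Fin n → ℝ) (δ R M : ℝ) (k : ℕ) (i j : Fin n) (A : Fin n → ℝ) :
    MeasurableSet (TT p q δ R M k i j A) :=
  measurable_prodMk_left (measurable_TT p q δ R M k i j)

/-- the slopes of the line `i` for which it meets the line `j` on the `k`-level -/
def XX (p q : Fin n → ℝ) (δ R M : ℝ) (k : ℕ) (i j : Fin n) (A : Fin n → ℝ) : Set ℝ :=
  {y | y ≠ A j ∧ cc p q A i j / (y - A j) ∈ TT p q δ R M k i j A}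

theorem vol_XX {p q A : Fin n → ℝ} {δ R M : ℝ} {k : ℕ} {i j : Fin n} (hδ : 0 < δ) :
    volume (XX p q δ R M k i j A) ≤
      ∫⁻ t in TT p q δ R M k i j A, ENNReal.ofReal (2 * M / |t|) := by
  by_cases hc : cc p q A i j = 0
  · have : XX p q δ R M k i j A = ∅ := by
      ext y
      simp only [Set.mem_empty_iff_false, iff_false]
      rintro ⟨_, _, h, _⟩
      rw [hc, zero_div] at h
      have := h.1
      rw [abs_zero] at this
      linarith
    rw [this]
    simp
  · have h0 : ∀ t ∈ TT p q δ R M k i j A, t ≠ 0 := by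
      rintro t ⟨_, h, _⟩ rfl
      have := h.1
      rw [abs_zero] at this
      linarith
    calc volume (XX p q δ R M k i j A)
        ≤ volume ((fun t => A j + cc p q A i j / t) '' (TT p q δ R M k i j A)) := by
          apply measure_mono
          rintro y ⟨hy, h⟩
          refine ⟨_, h, ?_⟩
          simp only
          rw [div_div_cancel₀ hc]
          ring
      _ = _ := image_vol _ _ hc (measurable_TTs p q δ R M k i j A) h0
      _ ≤ _ := by
          apply setLIntegral_mono' (measurable_TTs p q δ R M k i j A)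
          rintro t ht
          apply ENNReal.ofReal_le_ofReal
          have ht0 := abs_pos.2 (h0 t ht)
          rw [abs_div, abs_pow, div_le_div_iff₀ (by positivity) ht0]
          have := ht.2.2.1
          nlinarith

theorem sum_XX {p q A : Fin n → ℝ} {δ R M D : ℝ} {k : ℕ} {i : Fin n}
    (hA : ∀ j l, j ≠ l → A j ≠ A l ∨ j = i ∨ l = i) (hδ : 0 < δ) (hR : δ ≤ R) (hM : 0 ≤ M)
    {μ : Measure ℝ} (hμ : μ ≤ ENNReal.ofReal D • volume) :
    ∑ j, μ (XX p q δ R M k i j A) ≤
      ENNReal.ofReal D * ENNReal.ofReal (4 * M * Real.log (R / δ)) := by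
  calc ∑ j, μ (XX p q δ R M k i j A)
      ≤ ∑ j, ENNReal.ofReal D * ∫⁻ t in TT p q δ R M k i j A, ENNReal.ofReal (2 * M / |t|) := by
        apply sum_le_sum
        intro j _
        refine (hμ _).trans ?_
        rw [Measure.smul_apply, smul_eq_mul]
        gcongr
        exact vol_XX hδ
    _ = ENNReal.ofReal D * ∫⁻ t in ⋃ j, TT p q δ R M k i j A, ENNReal.ofReal (2 * M / |t|) := by
        rw [← mul_sum, lintegral_iUnion₀ (fun j => (measurable_TTs p q δ R M k i j A).nullMeasurableSet)
          (TT_disj hA), tsum_fintype]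
    _ ≤ _ := by
        gcongr
        refine le_trans (lintegral_mono_set ?_) (shell_int hδ hR hM)
        rintro t ht
        rw [Set.mem_iUnion] at ht
        obtain ⟨j, hj⟩ := ht
        exact hj.2.1

theorem TT_update {p q A : Fin n → ℝ} {δ R M : ℝ} {k : ℕ} {i j : Fin n} (y : ℝ) :
    TT p q δ R M k i j (Function.update A i y) = TT p q δ R M k i j A := by
  ext t
  by_cases hj : j = i
  · constructor
    · rintro ⟨h, _⟩
      exact absurd hj h
    · rintro ⟨h, _⟩
      exact absurd hj h
  have h1 : cc p q (Function.update A i y) i j = cc p q A i j := by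
    unfold cc
    rw [Function.update_of_ne hj]
  have h2 : ∀ l, l ≠ i → ∀ x, hp p q (Function.update A i y) l x = hp p q A l x := by
    intro l hl x
    unfold hp
    rw [Function.update_of_ne hl]
  have h3 : {l | l ≠ i ∧ hp p q (Function.update A i y) l (p i + t) <
      hp p q (Function.update A i y) j (p i + t)} =
      {l | l ≠ i ∧ hp p q A l (p i + t) < hp p q A j (p i + t)} := by
    ext l
    simp only [Set.mem_ofPred_eq]
    constructor
    · rintro ⟨hl, h⟩
      rw [h2 l hl, h2 j hj] at h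
      exact ⟨hl, h⟩
    · rintro ⟨hl, h⟩
      rw [h2 l hl, h2 j hj]
      exact ⟨hl, h⟩
  unfold TT
  simp only [Set.mem_ofPred_eq]
  rw [h1, h3]

/-- the event -/
def Mid (p q : Fin n → ℝ) (δ R M : ℝ) (k : ℕ) (i j : Fin n) : Set (Fin n → ℝ) :=
  {A | A i ∈ XX p q δ R M k i j A}

theorem measurable_Mid (p q : Fin n → ℝ) (δ R M : ℝ) (k : ℕ) (i j : Fin n) :
    MeasurableSet (Mid p q δ R M k i j) := by
  have h1 : MeasurableSet {A : Fin n → ℝ | A i ≠ A j} :=
    (measurableSet_eq_fun (measurable_pi_apply i) (measurable_pi_apply j)).compl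
  have h2 : Measurable (fun A : Fin n → ℝ => (A, cc p q A i j / (A i - A j))) := by
    apply measurable_id.prodMk
    exact (measurable_cc p q i j).div ((measurable_pi_apply i).sub (measurable_pi_apply j))
  exact h1.inter (h2 (measurable_TT p q δ R M k i j))

theorem Mid_update {p q A : Fin n → ℝ} {δ R M : ℝ} {k : ℕ} {i j : Fin n} (y : ℝ) :
    Function.update A i y ∈ Mid p q δ R M k i j ↔ j ≠ i ∧ y ∈ XX p q δ R M k i j A := by
  unfold Mid XX
  simp only [Set.mem_ofPred_eq, TT_update, Function.update_self]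
  constructor
  · rintro ⟨h1, h2⟩
    have hj := h2.1
    have h3 : cc p q (Function.update A i y) i j = cc p q A i j := by
      unfold cc
      rw [Function.update_of_ne hj]
    rw [h3, Function.update_of_ne hj] at h2
    rw [Function.update_of_ne hj] at h1
    exact ⟨hj, h1, h2⟩
  · rintro ⟨hj, h1, h2⟩
    have h3 : cc p q (Function.update A i y) i j = cc p q A i j := by
      unfold cc
      rw [Function.update_of_ne hj]
    rw [h3, Function.update_of_ne hj]
    exact ⟨h1, h2⟩

theorem sum_Mid {ν : Fin n → Measure ℝ} [∀ i, IsProbabilityMeasure (ν i)] {p q : Fin n → ℝ}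
    {δ R M D : ℝ} {k : ℕ} {i : Fin n}
    (hA : ∀ᵐ A ∂Measure.pi ν, ∀ j l, j ≠ l → A j ≠ A l) (hδ : 0 < δ) (hR : δ ≤ R) (hM : 0 ≤ M)
    (hν : ∀ i, ν i ≤ ENNReal.ofReal D • volume) :
    ∑ j, Measure.pi ν (Mid p q δ R M k i j) ≤
      ENNReal.ofReal D * ENNReal.ofReal (4 * M * Real.log (R / δ)) := by
  have h1 := lint_count (Measure.pi ν) (fun A j => A ∈ Mid p q δ R M k i j)
    (fun j => measurable_Mid p q δ R M k i j)
  simp only [Set.ofPred_mem_eq] at h1
  rw [← h1]
  have hm : Measurable (fun A : Fin n → ℝ => ({j | A ∈ Mid p q δ R M k i j}.ncard : ℝ≥0∞)) :=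
    (measurable_of_countable (fun c : ℕ => (c : ℝ≥0∞))).comp
      (measurable_ncard (fun (A : Fin n → ℝ) j => A ∈ Mid p q δ R M k i j)
        (fun j => measurable_Mid p q δ R M k i j))
  rw [pi_update ν i hm]
  calc _ ≤ ∫⁻ _A, ENNReal.ofReal D * ENNReal.ofReal (4 * M * Real.log (R / δ)) ∂Measure.pi ν := by
        apply lintegral_mono_ae
        filter_upwards [hA] with A hA'
        rw [lint_count (ν i) (fun y j => Function.update A i y ∈ Mid p q δ R M k i j)
          (fun j => (measurable_update A) (measurable_Mid p q δ R M k i j))]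
        have h2 : ∑ j, ν i (XX p q δ R M k i j A) ≤ _ :=
          sum_XX (fun j l hjl => Or.inl (hA' j l hjl)) hδ hR hM (hν i)
        refine le_trans (sum_le_sum fun j _ => measure_mono ?_) h2
        intro y hy
        exact ((Mid_update y).1 hy).2
    _ = _ := by simp

end Pool.Agent.V11262.PL
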