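import Pool.Agent.V11262.PL.Piv2

/-! Lines with random directions through arbitrary pivots: the number of crossings on a level. -/

set_option autoImplicit false

namespace Pool.Agent.V11262.PL

open Finset MeasureTheory Filter Pool.Agent.H189R2.Lev
open Pool.Agent.Results.MP_a08d0a_co.SmoothedLevel (Simple crossings level psi count3 psi_le
  measurable_crossings measurable_ncard ae_simple null_coord)
open scoped ENNReal Topology

variable {n : ℕ}

/-- the line `j` passes close to the pivot of the line `i` -/
def Near (p q : Fin n → ℝ) (δ M : ℝ) (i j : Fin n) : Set (Fin n → ℝ) :=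
  {A | j ≠ i ∧ |A j| ≤ M ∧ |cc p q A i j| ≤ 2 * M * δ}

/-- the lines `i` and `j` are almost parallel -/
def Far (r : ℝ) (i j : Fin n) : Set (Fin n → ℝ) := {A | j ≠ i ∧ |A i - A j| ≤ r}

theorem le_Icc {μ : Measure ℝ} {D : ℝ} (hμ : μ ≤ ENNReal.ofReal D • volume) {s t : ℝ} (h : s ≤ t) :
    μ (Set.Icc s t) ≤ ENNReal.ofReal (D * (t - s)) := by
  refine (hμ _).trans ?_
  rw [Measure.smul_apply, smul_eq_mul, Real.volume_Icc, ENNReal.ofReal_mul' (sub_nonneg.2 h)]

theorem D_pos {μ : Measure ℝ} [IsProbabilityMeasure μ] {D : ℝ}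
    (hμ : μ ≤ ENNReal.ofReal D • volume) : 0 < D := by
  by_contra h
  push Not at h
  rw [ENNReal.ofReal_of_nonpos h, zero_smul] at hμ
  have h1 := hμ Set.univ
  rw [measure_univ] at h1
  simp at h1

theorem measurable_Near (p q : Fin n → ℝ) (δ M : ℝ) (i j : Fin n) :
    MeasurableSet (Near p q δ M i j) :=
  (MeasurableSet.const _).inter
    ((measurableSet_le (measurable_pi_apply j).norm measurable_const).inter
      (measurableSet_le (measurable_cc p q i j).norm measurable_const))

theorem measurable_Far (r : ℝ) (i j : Fin n) : MeasurableSet (Far r i j) :=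
  (MeasurableSet.const _).inter
    (measurableSet_le ((measurable_pi_apply i).sub (measurable_pi_apply j)).norm measurable_const)

section random

variable {ν : Fin n → Measure ℝ} [∀ i, IsProbabilityMeasure (ν i)] {D : ℝ}

theorem far_bound (hν : ∀ i, ν i ≤ ENNReal.ofReal D • volume) {r : ℝ} (hr : 0 ≤ r)
    (i j : Fin n) : Measure.pi ν (Far r i j) ≤ ENNReal.ofReal (2 * D * r) := by
  have hm := measurable_Far r i j
  rw [← lintegral_indicator_one hm, pi_update ν i (measurable_one.indicator hm)]
  calc _ ≤ ∫⁻ _A, ENNReal.ofReal (2 * D * r) ∂Measure.pi ν := by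
        apply lintegral_mono
        intro A
        calc _ ≤ ∫⁻ y, (Set.Icc (A j - r) (A j + r)).indicator (1 : ℝ → ℝ≥0∞) y ∂ν i := by
              apply lintegral_mono
              intro y
              beta_reduce
              by_cases h : Function.update A i y ∈ Far r i j
              · have h1 : y ∈ Set.Icc (A j - r) (A j + r) := by
                  obtain ⟨hj, h2⟩ := h
                  rw [Function.update_self, Function.update_of_ne hj, abs_le] at h2
                  constructor <;> linarith [h2.1, h2.2]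
                rw [Set.indicator_of_mem h, Set.indicator_of_mem h1]
                exact le_rfl
              · simp only [Set.indicator_of_notMem h]
                exact bot_le
          _ = ν i (Set.Icc (A j - r) (A j + r)) := lintegral_indicator_one measurableSet_Icc
          _ ≤ _ := le_Icc (hν i) (by linarith)
          _ = _ := by congr 1; ring
    _ = _ := by simp

theorem near_bound (hν : ∀ i, ν i ≤ ENNReal.ofReal D • volume) {p q : Fin n → ℝ} {M δ g : ℝ}
    (hM : 0 < M) (hδ : 0 < δ) (hδg : 4 * δ ≤ g) {i j : Fin n}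
    (hpq : M * g ≤ M * |p i - p j| + |q i - q j|) :
    Measure.pi ν (Near p q δ M i j) ≤ ENNReal.ofReal (16 * D * M * δ / g) := by
  have hg : 0 < g := by linarith
  have hD := D_pos (hν i)
  rcases (Near p q δ M i j).eq_empty_or_nonempty with he | ⟨A0, hj, hA1, hA2⟩
  · rw [he]
    simp
  have hP : g / 4 ≤ |p i - p j| := by
    have h1 : |q i - q j| ≤ 2 * M * δ + M * |p i - p j| := by
      have e : q i - q j = A0 j * (p i - p j) - cc p q A0 i j := by
        unfold cc
        ring
      rw [e]
      refine (abs_sub _ _).trans ?_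
      rw [abs_mul]
      have := mul_le_mul_of_nonneg_right hA1 (abs_nonneg (p i - p j))
      linarith
    by_contra hcon
    push Not at hcon
    nlinarith
  have hP0 : 0 < |p i - p j| := by linarith
  have hp0 : p i - p j ≠ 0 := abs_pos.1 hP0
  set r := 8 * M * δ / g with hr
  have hr0 : 0 ≤ r := by positivity
  set a := (q i - q j) / (p i - p j) with ha
  have hsub : Near p q δ M i j ⊆ Function.eval j ⁻¹' (Set.Icc (a - r) (a + r)) := by
    rintro A ⟨_, h1, h2⟩
    show A j ∈ Set.Icc (a - r) (a + r)
    have e : cc p q A i j = (A j - a) * (p i - p j) := by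
      rw [ha]
      unfold cc
      field_simp
      ring
    rw [e, abs_mul] at h2
    have h3 : |A j - a| ≤ r := by
      rw [hr, le_div_iff₀ hg]
      have h4 : |A j - a| * (g / 4) ≤ |A j - a| * |p i - p j| :=
        mul_le_mul_of_nonneg_left hP (abs_nonneg _)
      linarith
    rw [abs_le] at h3
    constructor <;> linarith [h3.1, h3.2]
  refine (measure_mono hsub).trans ?_
  rw [(measurePreserving_eval ν j).measure_preimage measurableSet_Icc.nullMeasurableSet]
  refine (le_Icc (hν j) (by linarith)).trans (le_of_eq ?_)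
  congr 1
  rw [hr]
  ring

theorem slopes_ne (hν : ∀ i, ν i ≤ ENNReal.ofReal D • volume) :
    ∀ᵐ A ∂Measure.pi ν, ∀ i j, i ≠ j → A i ≠ A j := by
  have hν' : ∀ i, ∀ s t : ℝ, s ≤ t → ν i (Set.Icc s t) ≤ ENNReal.ofReal (D * (t - s)) :=
    fun i s t h => le_Icc (hν i) h
  rw [ae_all_iff]; intro i
  rw [ae_all_iff]; intro j
  by_cases hij : i = j
  · exact Eventually.of_forall (fun _ h => absurd hij h)
  · filter_upwards [null_coord hν' i (fun B => B j) (measurable_pi_apply j)
      (fun B b => Function.update_of_ne (Ne.symm hij) _ _)] with B hB _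
    exact hB

end random

theorem cover {p q A : Fin n → ℝ} {M δ R G : ℝ} (hA : ∀ l, |A l| ≤ M) (hM : 0 < M)
    (hR : 0 < R) {i j : Fin n} (hG : M * |p i - p j| + |q i - q j| ≤ M * G)
    (hij : i ≠ j) (hne : A i ≠ A j) {k : ℕ}
    (hk : {l | ht A (ic p q A) l (cr A (ic p q A) i j) <
      ht A (ic p q A) i (cr A (ic p q A) i j)}.ncard = k) :
    A ∈ Near p q δ M i j ∨ A ∈ Far (M * G / R) i j ∨ A ∈ Mid p q δ R M k i j := by
  have h1 := ht_cr (B := ic p q A) hne
  set x := cr A (ic p q A) i j with hx
  set t := x - p i with ht'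
  have e1 : (A i - A j) * t = cc p q A i j := by
    rw [ht_ic, ht_ic] at h1
    unfold cc
    linear_combination (-1 : ℝ) * h1
  have hne' : A i - A j ≠ 0 := sub_ne_zero.mpr hne
  have e2 : cc p q A i j / (A i - A j) = t := by
    rw [← e1, mul_div_cancel_left₀ _ hne']
  have e3 : |A i - A j| ≤ 2 * M := by
    refine (abs_sub _ _).trans ?_
    linarith [hA i, hA j]
  have e4 : |A i - A j| * |t| = |cc p q A i j| := by
    rw [← abs_mul, e1]
  have e5 : |cc p q A i j| ≤ 2 * M * |t| := by
    rw [← e4]
    exact mul_le_mul_of_nonneg_right e3 (abs_nonneg _)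
  by_cases hn : |cc p q A i j| ≤ 2 * M * δ
  · left
    exact ⟨hij.symm, hA j, hn⟩
  push Not at hn
  have e6 : δ ≤ |t| := by
    by_contra hcon
    push Not at hcon
    nlinarith
  right
  by_cases hR' : |t| ≤ R
  · right
    refine ⟨hne, ?_⟩
    rw [e2]
    refine ⟨hij.symm, ⟨e6, hR'⟩, e5, ?_⟩
    rw [← hk]
    congr 1
    ext l
    simp only [Set.mem_ofPred_eq]
    have e7 : p i + t = x := by rw [ht']; ring
    rw [e7]
    have e8 : ∀ l, hp p q A l x = ht A (ic p q A) l x := fun l => (ht_ic p q A l x).symm
    rw [e8, e8, h1]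
    constructor
    · exact fun h => h.2
    · intro h
      refine ⟨?_, h⟩
      rintro rfl
      exact lt_irrefl _ h
  · left
    push Not at hR'
    refine ⟨hij.symm, ?_⟩
    rw [le_div_iff₀ hR]
    have e7 : |cc p q A i j| ≤ M * G := by
      unfold cc
      refine (abs_add_le _ _).trans ?_
      rw [abs_mul, abs_sub_comm (q j) (q i)]
      have := mul_le_mul_of_nonneg_right (hA j) (abs_nonneg (p i - p j))
      linarith
    have e8 := mul_le_mul_of_nonneg_left hR'.le (abs_nonneg (A i - A j))
    linarith

end Pool.Agent.V11262.PL
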