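import Pool.Agent.V11262.PL.Piv3

/-! Lines with random directions through arbitrary pivots: the main bounds. -/

set_option autoImplicit false

namespace Pool.Agent.V11262.PL

open Finset MeasureTheory Filter Pool.Agent.H189R2.Lev
open Pool.Agent.Results.MP_a08d0a_co.SmoothedLevel (Simple crossings level psi count3 psi_le
  measurable_crossings measurable_ncard ae_simple null_coord)
open scoped ENNReal Topology

variable {n : ℕ}

theorem mcr (p q : Fin n → ℝ) (i j : Fin n) :
    Measurable (fun A : Fin n → ℝ => cr A (ic p q A) i j) := by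
  unfold cr ic
  fun_prop

theorem mht (p q : Fin n → ℝ) (i j l : Fin n) :
    Measurable (fun A : Fin n → ℝ => ht A (ic p q A) l (cr A (ic p q A) i j)) := by
  have h := mcr p q i j
  have e : (fun A : Fin n → ℝ => ht A (ic p q A) l (cr A (ic p q A) i j)) =
      fun A => q l + A l * (cr A (ic p q A) i j - p l) := by
    ext A
    rw [ht_ic]
  rw [e]
  fun_prop

theorem measurable_piv (p q : Fin n → ℝ) (k : ℕ) :
    Measurable (fun A : Fin n → ℝ => ((crossings A (ic p q A) k).ncard : ℝ≥0∞)) := by
  have h := measurable_ncard (fun (A : Fin n → ℝ) (z : Fin n × Fin n) => z.1 < z.2 ∧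
    A z.1 ≠ A z.2 ∧ {l | ht A (ic p q A) l (cr A (ic p q A) z.1 z.2) <
      ht A (ic p q A) z.1 (cr A (ic p q A) z.1 z.2)}.ncard = k)
    (fun z => (MeasurableSet.const _).inter
      ((measurableSet_eq_fun (measurable_pi_apply z.1) (measurable_pi_apply z.2)).compl.inter
        ((measurable_ncard (fun (A : Fin n → ℝ) l =>
          ht A (ic p q A) l (cr A (ic p q A) z.1 z.2) <
            ht A (ic p q A) z.1 (cr A (ic p q A) z.1 z.2))
          (fun l => measurableSet_lt (mht p q z.1 z.2 l) (mht p q z.1 z.2 z.1)))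
          (measurableSet_singleton k))))
  exact (measurable_of_countable (fun c : ℕ => (c : ℝ≥0∞))).comp h

theorem ncard_rows {P : Fin n × Fin n → Prop} {Q1 Q2 Q3 : Fin n → Fin n → Prop}
    (h : ∀ i j, P (i, j) → Q1 i j ∨ Q2 i j ∨ Q3 i j) :
    {z | P z}.ncard ≤ ∑ i, ({j | Q1 i j}.ncard + {j | Q2 i j}.ncard + {j | Q3 i j}.ncard) := by
  classical
  have e : {z | P z} = ((univ.filter (fun z : Fin n × Fin n => P z) : Finset _) : Set _) := by
    ext z; simp
  rw [e, Set.ncard_coe_finset, card_filter, Fintype.sum_prod_type]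
  apply sum_le_sum
  intro i _
  have e' : ∑ j, (if P (i, j) then 1 else 0) = {j | P (i, j)}.ncard := by
    have e' : {j | P (i, j)} = ((univ.filter (fun j => P (i, j)) : Finset _) : Set _) := by
      ext j; simp
    rw [e', Set.ncard_coe_finset, card_filter]
  rw [e']
  have hsub : {j | P (i, j)} ⊆ ({j | Q1 i j} ∪ {j | Q2 i j}) ∪ {j | Q3 i j} := by
    intro j hj
    rcases h i j hj with h' | h' | h'
    · exact Or.inl (Or.inl h')
    · exact Or.inl (Or.inr h')
    · exact Or.inr h'
  refine (Set.ncard_le_ncard hsub (Set.toFinite _)).trans ?_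
  refine (Set.ncard_union_le _ _).trans ?_
  gcongr
  exact Set.ncard_union_le _ _

section random

variable {ν : Fin n → Measure ℝ} [∀ i, IsProbabilityMeasure (ν i)] {D : ℝ}

theorem piv_simple (hν : ∀ i, ν i ≤ ENNReal.ofReal D • volume) {p q : Fin n → ℝ}
    (hpq : ∀ i j, i ≠ j → p i = p j → q i ≠ q j) :
    ∀ᵐ A ∂Measure.pi ν, Simple A (ic p q A) := by
  have hν' : ∀ i, ∀ s t : ℝ, s ≤ t → ν i (Set.Icc s t) ≤ ENNReal.ofReal (D * (t - s)) :=
    fun i s t h => le_Icc (hν i) h
  have h2 : ∀ᵐ A ∂Measure.pi ν, ∀ i j l, i ≠ l → j ≠ l →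
      A l ≠ (ht A (ic p q A) i (cr A (ic p q A) i j) - q l) / (cr A (ic p q A) i j - p l) := by
    rw [ae_all_iff]; intro i
    rw [ae_all_iff]; intro j
    rw [ae_all_iff]; intro l
    by_cases hil : i = l
    · exact Eventually.of_forall (fun _ h => absurd hil h)
    by_cases hjl : j = l
    · exact Eventually.of_forall (fun _ _ h => absurd hjl h)
    filter_upwards [null_coord hν' l
      (fun A => (ht A (ic p q A) i (cr A (ic p q A) i j) - q l) / (cr A (ic p q A) i j - p l))
      (((mht p q i j i).sub_const _).div ((mcr p q i j).sub_const _)) (fun A a => by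
        unfold ht cr ic
        rw [Function.update_of_ne hil, Function.update_of_ne hjl])] with A hA _ _
    exact hA
  have h3 : ∀ᵐ A ∂Measure.pi ν, ∀ i l, i ≠ l → A i ≠ (q l - q i) / (p l - p i) := by
    rw [ae_all_iff]; intro i
    rw [ae_all_iff]; intro l
    filter_upwards [null_coord hν' i (fun _ => (q l - q i) / (p l - p i)) measurable_const
      (fun A a => rfl)] with A hA _
    exact hA
  filter_upwards [slopes_ne hν, h2, h3] with A hA1 hA2 hA3
  refine ⟨fun i j hij h => absurd h (hA1 i j hij), ?_⟩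
  rintro i j l hij hil hjl ⟨x, e1, e2⟩
  have ha' : A i - A j ≠ 0 := sub_ne_zero.mpr (hA1 i j hij)
  have hx : x = cr A (ic p q A) i j := by
    unfold cr
    unfold ht at e1
    rw [eq_div_iff ha']
    linarith
  by_cases hl : x = p l
  · have e3 : ht A (ic p q A) l x = q l := by
      rw [ht_ic, hl]
      ring
    have e4 : q i + A i * (p l - p i) = q l := by
      rw [← e3, ← e2, ht_ic, hl]
    by_cases hp : p i = p l
    · apply hpq i l hil hp
      rw [hp, sub_self, mul_zero, add_zero] at e4
      exact e4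
    · apply hA3 i l hil
      rw [eq_div_iff (sub_ne_zero.mpr (Ne.symm hp))]
      linarith
  · apply hA2 i j l hil hjl
    rw [← hx, eq_div_iff (sub_ne_zero.mpr hl), e2, ht_ic]
    ring

theorem piv_cross (hν : ∀ i, ν i ≤ ENNReal.ofReal D • volume) {p q : Fin n → ℝ} {M g G : ℝ}
    (hM : 0 < M) (hg : 0 < g)
    (hpq : ∀ i j, i ≠ j → M * g ≤ M * |p i - p j| + |q i - q j| ∧
      M * |p i - p j| + |q i - q j| ≤ M * G)
    (hA : ∀ i, ∀ᵐ x ∂ν i, |x| ≤ M) (k : ℕ) :
    ∫⁻ A, ((crossings A (ic p q A) k).ncard : ℝ≥0∞) ∂Measure.pi ν ≤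
      ENNReal.ofReal (D * M * n * (4 * Real.log (4 * n ^ 2 * G / g) + 6)) := by
  rcases Nat.lt_or_ge n 2 with hn | hn
  · have : ∀ A : Fin n → ℝ, crossings A (ic p q A) k = ∅ := by
      intro A
      ext ⟨i, j⟩
      simp only [Set.mem_empty_iff_false, iff_false]
      rintro ⟨h, _⟩
      have h1 : i.1 < j.1 := h
      have := j.2
      omega
    simp [this]
  have hD := D_pos (hν ⟨0, by omega⟩)
  have hgG : g ≤ G := by
    have h := hpq ⟨0, by omega⟩ ⟨1, by omega⟩ (by simp)
    have := h.1.trans h.2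
    exact le_of_mul_le_mul_left this hM
  have hn0 : (0 : ℝ) < n := by
    have : 0 < n := by omega
    exact_mod_cast this
  have hn1 : (1 : ℝ) ≤ n := by
    have : 1 ≤ n := by omega
    exact_mod_cast this
  have hG : 0 < G := hg.trans_le hgG
  set δ := g / (4 * n) with hδ
  set R := n * G with hR
  have hδ0 : 0 < δ := by positivity
  have hR0 : 0 < R := by positivity
  have hδg : 4 * δ ≤ g := by
    rw [hδ, show 4 * (g / (4 * (n : ℝ))) = g / n by field_simp]
    rw [div_le_iff₀ hn0]
    nlinarith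
  have hδR : δ ≤ R := by
    have : G ≤ R := by
      rw [hR]
      nlinarith
    linarith
  have hRδ : R / δ = 4 * n ^ 2 * G / g := by
    rw [hR, hδ]
    field_simp
  have hlog : 0 ≤ Real.log (R / δ) := Real.log_nonneg (by rwa [one_le_div hδ0])
  have hae : ∀ᵐ A ∂Measure.pi ν, ∀ l, |A l| ≤ M := by
    rw [ae_all_iff]
    intro l
    exact (measurePreserving_eval ν l).quasiMeasurePreserving.ae (hA l)
  have hne := slopes_ne (ν := ν) hν
  set N1 : Fin n → (Fin n → ℝ) → ℝ≥0∞ := fun i A => ({j | A ∈ Near p q δ M i j}.ncard : ℝ≥0∞)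
    with hN1
  set N2 : Fin n → (Fin n → ℝ) → ℝ≥0∞ := fun i A => ({j | A ∈ Far (M * G / R) i j}.ncard : ℝ≥0∞)
    with hN2
  set N3 : Fin n → (Fin n → ℝ) → ℝ≥0∞ := fun i A => ({j | A ∈ Mid p q δ R M k i j}.ncard : ℝ≥0∞)
    with hN3
  have m1 : ∀ i, Measurable (N1 i) := fun i =>
    (measurable_of_countable (fun c : ℕ => (c : ℝ≥0∞))).comp
      (measurable_ncard (fun (A : Fin n → ℝ) j => A ∈ Near p q δ M i j)
        (fun j => measurable_Near p q δ M i j))
  have m2 : ∀ i, Measurable (N2 i) := fun i =>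
    (measurable_of_countable (fun c : ℕ => (c : ℝ≥0∞))).comp
      (measurable_ncard (fun (A : Fin n → ℝ) j => A ∈ Far (M * G / R) i j)
        (fun j => measurable_Far (M * G / R) i j))
  have m3 : ∀ i, Measurable (N3 i) := fun i =>
    (measurable_of_countable (fun c : ℕ => (c : ℝ≥0∞))).comp
      (measurable_ncard (fun (A : Fin n → ℝ) j => A ∈ Mid p q δ R M k i j)
        (fun j => measurable_Mid p q δ R M k i j))
  have b1 : ∀ i, ∫⁻ A, N1 i A ∂Measure.pi ν ≤ ENNReal.ofReal (4 * D * M) := by
    intro i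
    rw [hN1, lint_count (Measure.pi ν) (fun A j => A ∈ Near p q δ M i j)
      (fun j => measurable_Near p q δ M i j)]
    calc _ ≤ ∑ _j : Fin n, ENNReal.ofReal (16 * D * M * δ / g) := by
          apply sum_le_sum
          intro j _
          by_cases hij : j = i
          · have : {A | A ∈ Near p q δ M i j} = ∅ := by
              ext A
              simp only [Set.mem_ofPred_eq, Set.mem_empty_iff_false, iff_false]
              exact fun h => h.1 hij
            rw [this]
            simp
          · exact near_bound hν hM hδ0 hδg (hpq i j (Ne.symm hij)).1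
      _ = _ := by
          rw [sum_const, card_univ, Fintype.card_fin, nsmul_eq_mul, ← ENNReal.ofReal_natCast,
            ← ENNReal.ofReal_mul (by positivity)]
          congr 1
          rw [hδ]
          field_simp
          ring
  have b2 : ∀ i, ∫⁻ A, N2 i A ∂Measure.pi ν ≤ ENNReal.ofReal (2 * D * M) := by
    intro i
    rw [hN2, lint_count (Measure.pi ν) (fun A j => A ∈ Far (M * G / R) i j)
      (fun j => measurable_Far (M * G / R) i j)]
    calc _ ≤ ∑ _j : Fin n, ENNReal.ofReal (2 * D * (M * G / R)) := by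
          apply sum_le_sum
          intro j _
          exact far_bound hν (by positivity) i j
      _ = _ := by
          rw [sum_const, card_univ, Fintype.card_fin, nsmul_eq_mul, ← ENNReal.ofReal_natCast,
            ← ENNReal.ofReal_mul (by positivity)]
          congr 1
          rw [hR]
          field_simp
  have b3 : ∀ i, ∫⁻ A, N3 i A ∂Measure.pi ν ≤
      ENNReal.ofReal (D * (4 * M * Real.log (R / δ))) := by
    intro i
    rw [hN3, lint_count (Measure.pi ν) (fun A j => A ∈ Mid p q δ R M k i j)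
      (fun j => measurable_Mid p q δ R M k i j), ENNReal.ofReal_mul hD.le]
    exact sum_Mid hne hδ0 hδR hM.le hν
  calc ∫⁻ A, ((crossings A (ic p q A) k).ncard : ℝ≥0∞) ∂Measure.pi ν
      ≤ ∫⁻ A, ∑ i, (N1 i A + N2 i A + N3 i A) ∂Measure.pi ν := by
        apply lintegral_mono_ae
        filter_upwards [hae, hne] with A hA1 hA2
        have := ncard_rows (P := fun z => z ∈ crossings A (ic p q A) k)
          (Q1 := fun i j => A ∈ Near p q δ M i j) (Q2 := fun i j => A ∈ Far (M * G / R) i j)
          (Q3 := fun i j => A ∈ Mid p q δ R M k i j) (by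
            rintro i j ⟨h1, h2, h3⟩
            exact cover hA1 hM hR0 (hpq i j h1.ne).2 h1.ne h2 h3)
        simp only [Set.ofPred_mem_eq] at this
        simp only [hN1, hN2, hN3]
        exact_mod_cast this
    _ = ∑ i, ∫⁻ A, (N1 i A + N2 i A + N3 i A) ∂Measure.pi ν :=
        lintegral_finsetSum _ (fun i _ => ((m1 i).add (m2 i)).add (m3 i))
    _ ≤ ∑ _i : Fin n, ENNReal.ofReal (D * M * (4 * Real.log (4 * n ^ 2 * G / g) + 6)) := by
        apply sum_le_sum
        intro i _
        have e1 : ∫⁻ A, (N1 i A + N2 i A + N3 i A) ∂Measure.pi ν =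
            ∫⁻ A, (N1 i A + N2 i A) ∂Measure.pi ν + ∫⁻ A, N3 i A ∂Measure.pi ν :=
          lintegral_add_left ((m1 i).add (m2 i)) _
        have e2 : ∫⁻ A, (N1 i A + N2 i A) ∂Measure.pi ν =
            ∫⁻ A, N1 i A ∂Measure.pi ν + ∫⁻ A, N2 i A ∂Measure.pi ν :=
          lintegral_add_left (m1 i) _
        rw [e1, e2]
        refine (add_le_add (add_le_add (b1 i) (b2 i)) (b3 i)).trans ?_
        rw [← ENNReal.ofReal_add (by positivity) (by positivity),
          ← ENNReal.ofReal_add (by positivity) (by positivity), hRδ]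
        apply ENNReal.ofReal_le_ofReal
        linarith
    _ = _ := by
        rw [sum_const, card_univ, Fintype.card_fin, nsmul_eq_mul, ← ENNReal.ofReal_natCast,
          ← ENNReal.ofReal_mul (by positivity)]
        congr 1
        ring

theorem piv_psi (hν : ∀ i, ν i ≤ ENNReal.ofReal D • volume) {p q : Fin n → ℝ} {M g G : ℝ}
    (hM : 0 < M) (hg : 0 < g)
    (hpq : ∀ i j, i ≠ j → M * g ≤ M * |p i - p j| + |q i - q j| ∧
      M * |p i - p j| + |q i - q j| ≤ M * G)
    (hA : ∀ i, ∀ᵐ x ∂ν i, |x| ≤ M) {k : ℕ} (hk : k < n) :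
    ∫⁻ A, (psi A (ic p q A) k : ℝ≥0∞) ∂Measure.pi ν ≤
      ENNReal.ofReal (D * M * n * (8 * Real.log (4 * n ^ 2 * G / g) + 12)) := by
  have hpq' : ∀ i j, i ≠ j → p i = p j → q i ≠ q j := by
    intro i j hij h1 h2
    have := (hpq i j hij).1
    rw [h1, h2, sub_self, sub_self, abs_zero, mul_zero, add_zero] at this
    have : 0 < M * g := by positivity
    linarith
  calc ∫⁻ A, (psi A (ic p q A) k : ℝ≥0∞) ∂Measure.pi ν
      ≤ ∫⁻ A, (((crossings A (ic p q A) k).ncard : ℝ≥0∞) +
          ((crossings A (ic p q A) (k - 1)).ncard : ℝ≥0∞)) ∂Measure.pi ν := by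
        apply lintegral_mono_ae
        filter_upwards [piv_simple hν hpq'] with A hA
        exact psi_cast hA hk
    _ = _ := lintegral_add_left (measurable_piv p q k) _
    _ ≤ _ := add_le_add (piv_cross hν hM hg hpq hA k) (piv_cross hν hM hg hpq hA (k - 1))
    _ ≤ _ := two_ofReal _
    _ = _ := by congr 1; ring

end random

end Pool.Agent.V11262.PL
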