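import Pool.Agent.V11262.PL.Dual

/-! Small perturbations of the intercepts or of the slopes. -/

set_option autoImplicit false

namespace Pool.Agent.V11262.PL

open Finset MeasureTheory Filter Pool.Agent.H189R2.Lev
open Pool.Agent.Results.MP_a08d0a_co.SmoothedLevel (Simple crossings level psi count3 psi_le
  measurable_crossings measurable_ncard ae_simple)
open scoped ENNReal Topology

/-- the uniform law on `[c - r, c + r]` -/
noncomputable def unif (c r : ℝ) : Measure ℝ :=
  (ENNReal.ofReal (2 * r))⁻¹ • volume.restrict (Set.Icc (c - r) (c + r))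

theorem unif_prob {c r : ℝ} (hr : 0 < r) : IsProbabilityMeasure (unif c r) := by
  constructor
  have h1 : ENNReal.ofReal (2 * r) ≠ 0 := by
    rw [Ne, ENNReal.ofReal_eq_zero]
    push Not
    positivity
  unfold unif
  rw [Measure.smul_apply, Measure.restrict_apply_univ, Real.volume_Icc, smul_eq_mul,
    show c + r - (c - r) = 2 * r by ring]
  exact ENNReal.inv_mul_cancel h1 ENNReal.ofReal_ne_top

theorem unif_Icc {c r : ℝ} (hr : 0 < r) (s t : ℝ) :
    unif c r (Set.Icc s t) ≤ ENNReal.ofReal (1 / (2 * r) * (t - s)) := by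
  unfold unif
  rw [Measure.smul_apply, smul_eq_mul, Measure.restrict_apply measurableSet_Icc]
  calc _ ≤ (ENNReal.ofReal (2 * r))⁻¹ * volume (Set.Icc s t) := by
        gcongr
        exact Set.inter_subset_left
    _ = _ := by
        have h2 : (0 : ℝ) < 2 * r := by positivity
        rw [Real.volume_Icc, one_div, ENNReal.ofReal_mul (inv_nonneg.2 h2.le),
          ENNReal.ofReal_inv_of_pos h2]

theorem unif_ae {c r : ℝ} : ∀ᵐ x ∂unif c r, |x - c| ≤ r := by
  unfold unif
  apply Measure.ae_smul_measure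
  filter_upwards [ae_restrict_mem measurableSet_Icc] with x hx
  rw [abs_le]
  constructor <;> linarith [hx.1, hx.2]

variable {n : ℕ}

/-- an outcome with a small value of an integrable function, near the centre -/
theorem choose_near (c : Fin n → ℝ) {r : ℝ} (hr : 0 < r) (P : (Fin n → ℝ) → Prop)
    (hP : ∀ᵐ B ∂Measure.pi (fun i => unif (c i) r), P B) (f : (Fin n → ℝ) → ℝ≥0∞)
    (hf : Measurable f) (T : ℝ≥0∞) (hT : ∫⁻ B, f B ∂Measure.pi (fun i => unif (c i) r) ≤ T) :
    ∃ B, (∀ i, |B i - c i| ≤ r) ∧ P B ∧ f B ≤ T := by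
  have : ∀ i, IsProbabilityMeasure (unif (c i) r) := fun i => unif_prob hr
  have hae : ∀ᵐ B ∂Measure.pi (fun i => unif (c i) r), ∀ l, |B l - c l| ≤ r := by
    rw [ae_all_iff]
    intro l
    exact (measurePreserving_eval (fun i => unif (c i) r) l).quasiMeasurePreserving.ae unif_ae
  have hN := hae.and hP
  rw [ae_iff] at hN
  obtain ⟨B, hB, hle⟩ := exists_notMem_null_le_lintegral (f := f) hf.aemeasurable hN
  rw [Set.mem_ofPred_eq, not_not] at hB
  exact ⟨B, hB.1, hB.2, hle.trans hT⟩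

theorem near_intercepts (a c : Fin n → ℝ) {M ε : ℝ} (hM0 : 0 < M) (hc : ∀ i, |c i| ≤ M)
    (hε : 0 < ε) (hε1 : ε ≤ 1) (K : Finset ℕ) :
    ∃ B, (∀ i, |B i - c i| ≤ ε * M) ∧ Simple a B ∧
      ∑ k ∈ K, (((crossings a B k).ncard : ℝ≥0∞) + ((crossings a B (k - 1)).ncard : ℝ≥0∞)) ≤
        ENNReal.ofReal (16 * K.card * n / ε) := by
  have hr : 0 < ε * M := by positivity
  have : ∀ i, IsProbabilityMeasure (unif (c i) (ε * M)) := fun i => unif_prob hr
  have hν : ∀ i, ∀ s t : ℝ, s ≤ t →
      unif (c i) (ε * M) (Set.Icc s t) ≤ ENNReal.ofReal (1 / (2 * (ε * M)) * (t - s)) :=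
    fun i s t _ => unif_Icc hr s t
  have hM : ∀ i, ∀ᵐ x ∂unif (c i) (ε * M), |x| ≤ (1 + ε) * M := by
    intro i
    filter_upwards [unif_ae (c := c i) (r := ε * M)] with x hx
    have h1 := abs_sub_abs_le_abs_sub x (c i)
    have h2 := hc i
    nlinarith
  obtain ⟨B, h1, h2, h3⟩ := choose_near c hr (fun B => Simple a B) (ae_simple hν a)
    (fun B => ∑ k ∈ K, (((crossings a B k).ncard : ℝ≥0∞) + ((crossings a B (k - 1)).ncard : ℝ≥0∞)))
    (Finset.measurable_sum _ fun k _ => (measurable_crossings a k).add (measurable_crossings a (k - 1)))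
    _ (sum_psi_intercepts hν hM a K)
  refine ⟨B, h1, h2, ?_⟩
  calc _ ≤ _ := h3
    _ ≤ _ := by
        rw [← ENNReal.ofReal_natCast, ← ENNReal.ofReal_mul (by positivity)]
        apply ENNReal.ofReal_le_ofReal
        have e : 16 * (1 / (2 * (ε * M))) * ((1 + ε) * M) * (n : ℝ) = 8 * (1 + ε) * n / ε := by
          field_simp
          ring
        rw [e, ← mul_div_assoc]
        apply div_le_div_of_nonneg_right _ hε.le
        have h4 : (0 : ℝ) ≤ (K.card : ℝ) * n := by positivity
        nlinarith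

theorem near_slopes (c b : Fin n → ℝ) (hb : Function.Injective b) {M ε : ℝ} (hM0 : 0 < M)
    (hc : ∀ i, |c i| ≤ M) (hε : 0 < ε) (hε1 : ε ≤ 1) (K : Finset ℕ) :
    ∃ A, (∀ i, |A i - c i| ≤ ε * M) ∧ Simple A b ∧
      ∑ k ∈ K, (((crossings A b k).ncard : ℝ≥0∞) + ((crossings A b (k - 1)).ncard : ℝ≥0∞)) ≤
        ENNReal.ofReal (32 * K.card * n / ε) := by
  have hr : 0 < ε * M := by positivity
  have : ∀ i, IsProbabilityMeasure (unif (c i) (ε * M)) := fun i => unif_prob hr
  have hν : ∀ i, ∀ s t : ℝ, s ≤ t →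
      unif (c i) (ε * M) (Set.Icc s t) ≤ ENNReal.ofReal (1 / (2 * (ε * M)) * (t - s)) :=
    fun i s t _ => unif_Icc hr s t
  have hM : ∀ i, ∀ᵐ x ∂unif (c i) (ε * M), |x| ≤ (1 + ε) * M := by
    intro i
    filter_upwards [unif_ae (c := c i) (r := ε * M)] with x hx
    have h1 := abs_sub_abs_le_abs_sub x (c i)
    have h2 := hc i
    nlinarith
  have hS : ∀ᵐ A ∂Measure.pi (fun i => unif (c i) (ε * M)), Simple A b := by
    filter_upwards [ae_simple hν b] with A hA
    exact dual_simple hb hA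
  obtain ⟨A, h1, h2, h3⟩ := choose_near c hr (fun A => Simple A b) hS
    (fun A => ∑ k ∈ K, (((crossings A b k).ncard : ℝ≥0∞) + ((crossings A b (k - 1)).ncard : ℝ≥0∞)))
    (Finset.measurable_sum _ fun k _ => (measurable_slopes b k).add (measurable_slopes b (k - 1)))
    _ (sum_psi_slopes hν hM hb K)
  refine ⟨A, h1, h2, ?_⟩
  calc _ ≤ _ := h3
    _ ≤ _ := by
        rw [← ENNReal.ofReal_natCast, ← ENNReal.ofReal_mul (by positivity)]
        apply ENNReal.ofReal_le_ofReal
        have e : 32 * (1 / (2 * (ε * M))) * ((1 + ε) * M) * (n : ℝ) = 16 * (1 + ε) * n / ε := by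
          field_simp
          ring
        rw [e, ← mul_div_assoc]
        apply div_le_div_of_nonneg_right _ hε.le
        have h4 : (0 : ℝ) ≤ (K.card : ℝ) * n := by positivity
        nlinarith

theorem shift_intercepts (a B : Fin n → ℝ) (q : ℝ) :
    (Simple a B → Simple a (fun i => B i + q)) ∧
      ∀ k, crossings a (fun i => B i + q) k = crossings a B k := by
  have h1 : ∀ l x, ht a (fun i => B i + q) l x = ht a B l x + q := by
    intro l x
    unfold ht
    ring
  have h2 : ∀ i j, cr a (fun i => B i + q) i j = cr a B i j := by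
    intro i j
    unfold cr
    congr 1
    ring
  constructor
  · rintro ⟨hs1, hs2⟩
    refine ⟨fun i j hij h h' => hs1 i j hij h (by simpa using h'), ?_⟩
    rintro i j l hij hil hjl ⟨x, e1, e2⟩
    apply hs2 i j l hij hil hjl
    rw [h1, h1] at e1 e2
    exact ⟨x, by linarith, by linarith⟩
  · intro k
    ext ⟨i, j⟩
    unfold crossings
    simp only [Set.mem_ofPred_eq, h1, h2, add_lt_add_iff_right]

theorem shift_slopes (A b : Fin n → ℝ) (p : ℝ) :
    (Simple A b → Simple (fun i => A i + p) b) ∧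
      ∀ k, crossings (fun i => A i + p) b k = crossings A b k := by
  have h1 : ∀ l x, ht (fun i => A i + p) b l x = ht A b l x + p * x := by
    intro l x
    unfold ht
    ring
  have h2 : ∀ i j, cr (fun i => A i + p) b i j = cr A b i j := by
    intro i j
    unfold cr
    congr 1
    ring
  constructor
  · rintro ⟨hs1, hs2⟩
    refine ⟨fun i j hij h => hs1 i j hij (by simpa using h), ?_⟩
    rintro i j l hij hil hjl ⟨x, e1, e2⟩
    apply hs2 i j l hij hil hjl
    rw [h1, h1] at e1 e2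
    exact ⟨x, by linarith, by linarith⟩
  · intro k
    ext ⟨i, j⟩
    unfold crossings
    simp only [Set.mem_ofPred_eq, h1, h2, add_lt_add_iff_right, ne_eq, add_left_inj]

/-- small perturbations of the intercepts -/
theorem perturb_intercepts (a b : Fin n → ℝ) {q M ε : ℝ} (hM0 : 0 < M)
    (hb : ∀ i, |b i - q| ≤ M) (hε : 0 < ε) (hε1 : ε ≤ 1) (K : Finset ℕ) (hK : ∀ k ∈ K, k < n) :
    ∃ b', (∀ i, |b' i - b i| ≤ ε * M) ∧ Simple a b' ∧
      ∑ k ∈ K, (psi a b' k : ℝ≥0∞) ≤ ENNReal.ofReal (16 * K.card * n / ε) := by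
  obtain ⟨B, h1, h2, h3⟩ := near_intercepts a (fun i => b i - q) hM0 hb hε hε1 K
  obtain ⟨h4, h5⟩ := shift_intercepts a B q
  refine ⟨fun i => B i + q, fun i => ?_, h4 h2, ?_⟩
  · have := h1 i
    rwa [show B i - (b i - q) = B i + q - b i by ring] at this
  · refine le_trans (sum_le_sum fun k hk => psi_cast (h4 h2) (hK k hk)) ?_
    simp only [h5]
    exact h3

/-- small perturbations of the slopes -/
theorem perturb_slopes (a b : Fin n → ℝ) (hbi : Function.Injective b) {p M ε : ℝ} (hM0 : 0 < M)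
    (ha : ∀ i, |a i - p| ≤ M) (hε : 0 < ε) (hε1 : ε ≤ 1) (K : Finset ℕ) (hK : ∀ k ∈ K, k < n) :
    ∃ a', (∀ i, |a' i - a i| ≤ ε * M) ∧ Simple a' b ∧
      ∑ k ∈ K, (psi a' b k : ℝ≥0∞) ≤ ENNReal.ofReal (32 * K.card * n / ε) := by
  obtain ⟨A, h1, h2, h3⟩ := near_slopes (fun i => a i - p) b hbi hM0 ha hε hε1 K
  obtain ⟨h4, h5⟩ := shift_slopes A b p
  refine ⟨fun i => A i + p, fun i => ?_, h4 h2, ?_⟩
  · have := h1 i
    rwa [show A i - (a i - p) = A i + p - a i by ring] at this
  · refine le_trans (sum_le_sum fun k hk => psi_cast (h4 h2) (hK k hk)) ?_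
    simp only [h5]
    exact h3

end Pool.Agent.V11262.PL
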